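import Pool.Agent.Helper2.LN.Sys

/-!
# LN5 (MP_730da0_ag): separately polynomial functions on `Conf k` are polynomial

`sepPoly`: a function on `Conf k` which is in every variable separately (the others fixed) a polynomial of degree
`≤ N` is the restriction of ONE polynomial of degree `≤ N` in every variable.  Also uniqueness, symmetry,
homogeneity.
-/

namespace Pool.Agent.Helper37.LN5

open Pool.Agent.Helper2.LN

/-- `H` is in every variable separately a polynomial of degree `≤ N` on `Conf k`. -/
def SepPoly {k : ℕ} (N : ℕ) (H : (Fin k → ℂ) → ℂ) : Prop :=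
  ∀ q ∈ Conf k, ∀ i : Fin k, ∃ p : Polynomial ℂ, p.natDegree ≤ N ∧
    ∀ z : ℂ, Function.update q i z ∈ Conf k → H (Function.update q i z) = p.eval z

/-- A polynomial that vanishes on `Conf k` is zero. -/
theorem eq_zero_of_conf {k : ℕ} (P : MvPolynomial (Fin k) ℂ)
    (h : ∀ q ∈ Conf k, MvPolynomial.eval q P = 0) : P = 0 := by
  classical
  have hD : (∏ ij ∈ (Finset.univ : Finset (Fin k)).offDiag,
      (MvPolynomial.X ij.1 - MvPolynomial.X ij.2 : MvPolynomial (Fin k) ℂ)) ≠ 0 := by
    rw [Finset.prod_ne_zero_iff]
    intro ij hij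
    rw [Finset.mem_offDiag] at hij
    intro h0
    rw [sub_eq_zero] at h0
    exact hij.2.2 (MvPolynomial.X_injective h0)
  have h0 : P * (∏ ij ∈ (Finset.univ : Finset (Fin k)).offDiag,
      (MvPolynomial.X ij.1 - MvPolynomial.X ij.2 : MvPolynomial (Fin k) ℂ)) = 0 := by
    apply MvPolynomial.funext
    intro q
    rw [map_mul, map_zero, map_prod]
    by_cases hq : q ∈ Conf k
    · rw [h q hq, zero_mul]
    · have : ∃ i j, q i = q j ∧ i ≠ j := by
        by_contra hcon
        push Not at hcon
        exact hq fun i j hij => hcon i j hij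
      obtain ⟨i, j, hij, hne⟩ := this
      apply mul_eq_zero_of_right
      apply Finset.prod_eq_zero (i := (i, j))
      · rw [Finset.mem_offDiag]
        exact ⟨Finset.mem_univ _, Finset.mem_univ _, hne⟩
      · simp [hij]
  rcases mul_eq_zero.1 h0 with h1 | h1
  · exact h1
  · exact absurd h1 hD

/-- Two polynomials that agree on `Conf k` are equal. -/
theorem eq_of_conf {k : ℕ} (P Q : MvPolynomial (Fin k) ℂ)
    (h : ∀ q ∈ Conf k, MvPolynomial.eval q P = MvPolynomial.eval q Q) : P = Q := by
  rw [← sub_eq_zero]
  apply eq_zero_of_conf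
  intro q hq
  rw [map_sub, h q hq, sub_self]

/-- the grid points: pairwise different for different `(i, m)`. -/
private def gp (k : ℕ) (i : Fin k) (m : ℕ) : ℂ := ((i.1 + k * m : ℕ) : ℂ)

private theorem gp_inj {k : ℕ} {i i' : Fin k} {m m' : ℕ} (h : gp k i m = gp k i' m') : i = i' ∧ m = m' := by
  unfold gp at h
  have h1 : i.1 + k * m = i'.1 + k * m' := by exact_mod_cast h
  have hk : 0 < k := lt_of_le_of_lt (Nat.zero_le _) i.2
  have h2 : i.1 = i'.1 := by
    have h3 := congrArg (· % k) h1
    simp only [Nat.add_mul_mod_self_left] at h3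
    rwa [Nat.mod_eq_of_lt i.2, Nat.mod_eq_of_lt i'.2] at h3
  refine ⟨Fin.ext h2, ?_⟩
  rw [h2] at h1
  exact Nat.eq_of_mul_eq_mul_left hk (Nat.add_left_cancel h1)

private noncomputable def grid (k : ℕ) (M : ℕ) (i : Fin k) : Finset ℂ := by
  classical exact (Finset.range M).image (gp k i)

private theorem mem_grid {k M : ℕ} {i : Fin k} {z : ℂ} : z ∈ grid k M i ↔ ∃ m < M, gp k i m = z := by
  classical
  unfold grid
  simp [Finset.mem_image]

private theorem card_grid (k M : ℕ) (i : Fin k) : (grid k M i).card = M := by
  classical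
  unfold grid
  rw [Finset.card_image_of_injective, Finset.card_range]
  intro a b hab
  exact (gp_inj hab).2

private theorem conf_of_grid {k M : ℕ} {q : Fin k → ℂ} (h : ∀ i, q i ∈ grid k M i) : q ∈ Conf k := by
  intro i j hij
  obtain ⟨m, _, hm⟩ := mem_grid.1 (h i)
  obtain ⟨m', _, hm'⟩ := mem_grid.1 (h j)
  have : gp k i m = gp k j m' := by rw [hm, hm']; exact hij
  exact (gp_inj this).1

private theorem grid_mono {k M M' : ℕ} (h : M ≤ M') {i : Fin k} {z : ℂ} (hz : z ∈ grid k M i) :
    z ∈ grid k M' i := by
  obtain ⟨m, hm, hz⟩ := mem_grid.1 hz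
  exact mem_grid.2 ⟨m, lt_of_lt_of_le hm h, hz⟩

/-- one variable: `N + 1` zeros of a function that is a polynomial of degree `≤ N`. -/
private theorem vanish_step {k N : ℕ} {G : (Fin k → ℂ) → ℂ} (hG : SepPoly N G) {q : Fin k → ℂ}
    (hq : q ∈ Conf k) (i : Fin k) (Z : Finset ℂ) (hZ : N < Z.card)
    (h : ∀ z ∈ Z, Function.update q i z ∈ Conf k ∧ G (Function.update q i z) = 0) : G q = 0 := by
  obtain ⟨p, hp, he⟩ := hG q hq i
  have hp0 : p = 0 := by
    apply Polynomial.eq_zero_of_natDegree_lt_card_of_eval_eq_zero' p Z
    · intro z hz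
      rw [← he z (h z hz).1]
      exact (h z hz).2
    · omega
  have := he (q i) (by rw [Function.update_eq_self]; exact hq)
  rw [Function.update_eq_self] at this
  rw [this, hp0, Polynomial.eval_zero]

private theorem vanish_of_grid {k N : ℕ} {G : (Fin k → ℂ) → ℂ} (hG : SepPoly N G)
    (h : ∀ q : Fin k → ℂ, (∀ i, q i ∈ grid k (N + 1) i) → G q = 0) : ∀ q ∈ Conf k, G q = 0 := by
  classical
  -- first step: the big grid
  have h1 : ∀ (T : Finset (Fin k)) (q : Fin k → ℂ), (∀ i ∈ T, q i ∈ grid k (N + 1 + k) i) →
      (∀ i, i ∉ T → q i ∈ grid k (N + 1) i) → G q = 0 := by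
    intro T
    induction T using Finset.induction_on with
    | empty => intro q _ hq; exact h q fun i => hq i (Finset.notMem_empty i)
    | insert a T ha ih =>
      intro q hq hq'
      have hbig : ∀ i, q i ∈ grid k (N + 1 + k) i := by
        intro i
        by_cases hi : i ∈ insert a T
        · exact hq i hi
        · exact grid_mono (by omega) (hq' i hi)
      refine vanish_step hG (conf_of_grid hbig) a (grid k (N + 1) a) (by rw [card_grid]; omega) ?_
      intro z hz
      constructor
      · apply conf_of_grid (M := N + 1 + k)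
        intro i
        by_cases hi : i = a
        · subst hi
          rw [Function.update_self]
          exact grid_mono (by omega) hz
        · rw [Function.update_of_ne hi]
          exact hbig i
      · apply ih
        · intro i hi
          have hia : i ≠ a := fun hh => ha (hh ▸ hi)
          rw [Function.update_of_ne hia]
          exact hbig i
        · intro i hi
          by_cases hia : i = a
          · subst hia
            rw [Function.update_self]
            exact hz
          · rw [Function.update_of_ne hia]
            apply hq'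
            simp only [Finset.mem_insert, not_or]
            exact ⟨hia, hi⟩
  -- second step: arbitrary coordinates
  have h2 : ∀ (T : Finset (Fin k)), ∀ q ∈ Conf k, (∀ i, i ∉ T → q i ∈ grid k (N + 1 + k) i) → G q = 0 := by
    intro T
    induction T using Finset.induction_on with
    | empty =>
      intro q _ hq
      exact h1 Finset.univ q (fun i _ => hq i (Finset.notMem_empty i))
        (fun i hi => absurd (Finset.mem_univ i) hi)
    | insert a T ha ih =>
      intro q hq hq'
      refine vanish_step hG hq a (grid k (N + 1 + k) a \ (Finset.univ.erase a).image q) ?_ ?_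
      · have h3 := Finset.le_card_sdiff ((Finset.univ.erase a).image q) (grid k (N + 1 + k) a)
        have h4 : ((Finset.univ.erase a).image q).card ≤ k - 1 := by
          refine le_trans Finset.card_image_le ?_
          rw [Finset.card_erase_of_mem (Finset.mem_univ a), Finset.card_univ, Fintype.card_fin]
        rw [card_grid] at h3
        have hk : 0 < k := lt_of_le_of_lt (Nat.zero_le _) a.2
        omega
      · intro z hz
        rw [Finset.mem_sdiff] at hz
        have hzn : ∀ i, i ≠ a → q i ≠ z := by
          intro i hi hh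
          exact hz.2 (Finset.mem_image.2 ⟨i, Finset.mem_erase.2 ⟨hi, Finset.mem_univ i⟩, hh⟩)
        have hc : Function.update q a z ∈ Conf k := by
          intro i j hij
          by_cases hi : i = a
          · by_cases hj : j = a
            · rw [hi, hj]
            · rw [hi, Function.update_self, Function.update_of_ne hj] at hij
              exact absurd hij.symm (hzn j hj)
          · by_cases hj : j = a
            · rw [hj, Function.update_self, Function.update_of_ne hi] at hij
              exact absurd hij (hzn i hi)
            · rw [Function.update_of_ne hi, Function.update_of_ne hj] at hij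
              exact hq hij
        refine ⟨hc, ih _ hc ?_⟩
        intro i hi
        by_cases hia : i = a
        · subst hia
          rw [Function.update_self]
          exact hz.1
        · rw [Function.update_of_ne hia]
          apply hq'
          simp only [Finset.mem_insert, not_or]
          exact ⟨hia, hi⟩
  intro q hq
  exact h2 Finset.univ q hq fun i hi => absurd (Finset.mem_univ i) hi

/-- A polynomial of degree `≤ N` in every variable is separately polynomial of degree `≤ N`. -/
theorem SepPoly.of_poly {k N : ℕ} (P : MvPolynomial (Fin k) ℂ) (hP : ∀ i, P.degreeOf i ≤ N) :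
    SepPoly N fun q => MvPolynomial.eval q P := by
  classical
  intro q _ i
  refine ⟨MvPolynomial.aeval (fun j => if j = i then (Polynomial.X : Polynomial ℂ) else Polynomial.C (q j)) P,
    ?_, ?_⟩
  · rw [MvPolynomial.aeval_def, MvPolynomial.eval₂_eq']
    apply Polynomial.natDegree_sum_le_of_forall_le
    intro m hm
    refine le_trans (Polynomial.natDegree_mul_le) ?_
    have e1 : (algebraMap ℂ (Polynomial ℂ) (MvPolynomial.coeff m P)).natDegree = 0 := by
      rw [Polynomial.algebraMap_eq]
      exact Polynomial.natDegree_C _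
    rw [e1, zero_add]
    refine le_trans (Polynomial.natDegree_prod_le _ _) ?_
    have : ∑ j, ((fun j => if j = i then (Polynomial.X : Polynomial ℂ) else Polynomial.C (q j)) j ^ m j).natDegree
        ≤ ∑ j, if j = i then m i else 0 := by
      apply Finset.sum_le_sum
      intro j _
      by_cases hj : j = i
      · simp [hj]
      · simp only [hj, if_false]
        rw [← Polynomial.C_pow, Polynomial.natDegree_C]
    refine le_trans this ?_
    rw [Finset.sum_ite_eq' Finset.univ i fun _ => m i]
    simp only [Finset.mem_univ, if_true]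
    exact le_trans (MvPolynomial.monomial_le_degreeOf i hm) (hP i)
  · intro z _
    show MvPolynomial.eval (Function.update q i z) P = _
    rw [← Polynomial.coe_evalRingHom, MvPolynomial.aeval_def, MvPolynomial.hom_eval₂]
    have e1 : (Polynomial.evalRingHom z).comp (algebraMap ℂ (Polynomial ℂ)) = RingHom.id ℂ := by
      ext x <;> simp
    rw [e1]
    have e2 : (fun j => (Polynomial.evalRingHom z) (if j = i then (Polynomial.X : Polynomial ℂ)
        else Polynomial.C (q j))) = Function.update q i z := by
      funext j
      by_cases hj : j = i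
      · subst hj; simp
      · simp [hj]
    rw [e2, MvPolynomial.eval₂_id]

theorem SepPoly.sub {k N : ℕ} {G H : (Fin k → ℂ) → ℂ} (hG : SepPoly N G) (hH : SepPoly N H) :
    SepPoly N fun q => G q - H q := by
  intro q hq i
  obtain ⟨p, hp, he⟩ := hG q hq i
  obtain ⟨p', hp', he'⟩ := hH q hq i
  refine ⟨p - p', le_trans (Polynomial.natDegree_sub_le _ _) (max_le hp hp'), fun z hz => ?_⟩
  show G _ - H _ = _
  rw [he z hz, he' z hz, Polynomial.eval_sub]

private theorem eval_aeval_X {k : ℕ} (q : Fin k → ℂ) (i : Fin k) (p : Polynomial ℂ) :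
    MvPolynomial.eval q (Polynomial.aeval (MvPolynomial.X i : MvPolynomial (Fin k) ℂ) p) = p.eval (q i) := by
  induction p using Polynomial.induction_on' with
  | add a b ha hb => rw [map_add, map_add, ha, hb, Polynomial.eval_add]
  | monomial n a =>
    rw [Polynomial.aeval_monomial, map_mul, map_pow, MvPolynomial.eval_X, Polynomial.eval_monomial,
      MvPolynomial.algebraMap_eq, MvPolynomial.eval_C]

/-- the interpolant on a product grid. -/
private theorem exists_interp {k N : ℕ} (H : (Fin k → ℂ) → ℂ) :
    ∃ P : MvPolynomial (Fin k) ℂ, (∀ i, P.degreeOf i ≤ N) ∧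
      ∀ q : Fin k → ℂ, (∀ i, q i ∈ grid k (N + 1) i) → H q = MvPolynomial.eval q P := by
  classical
  let ℓ : ∀ i : Fin k, ℂ → Polynomial ℂ := fun i c => Lagrange.basis (grid k (N + 1) i) id c
  refine ⟨∑ b ∈ Fintype.piFinset (grid k (N + 1)), MvPolynomial.C (H b) *
    ∏ i, Polynomial.aeval (MvPolynomial.X i : MvPolynomial (Fin k) ℂ) (ℓ i (b i)), ?_, ?_⟩
  · intro i
    refine le_trans (MvPolynomial.degreeOf_sum_le i _ _) ?_
    apply Finset.sup_le
    intro b hb
    refine le_trans (MvPolynomial.degreeOf_C_mul_le _ _ _) ?_
    refine le_trans (MvPolynomial.degreeOf_prod_le _ _ _) ?_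
    have hdeg : ∀ j, MvPolynomial.degreeOf i (Polynomial.aeval (MvPolynomial.X j : MvPolynomial (Fin k) ℂ)
        (ℓ j (b j))) ≤ if j = i then N else 0 := by
      intro j
      have hbj : b j ∈ grid k (N + 1) j := Fintype.mem_piFinset.1 hb j
      have hl : (ℓ j (b j)).natDegree ≤ N := by
        have := Lagrange.degree_basis (s := grid k (N + 1) j) (v := (id : ℂ → ℂ))
          (fun _ _ _ _ h => h) hbj
        have h2 := Polynomial.natDegree_eq_of_degree_eq_some this
        have h3 : (ℓ j (b j)).natDegree = (grid k (N + 1) j).card - 1 := h2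
        rw [h3, card_grid]
        omega
      rw [Polynomial.aeval_eq_sum_range]
      refine le_trans (MvPolynomial.degreeOf_sum_le i _ _) ?_
      apply Finset.sup_le
      intro m hm
      have hm' : m ≤ N := by
        have := Finset.mem_range.1 hm
        omega
      rw [MvPolynomial.smul_eq_C_mul]
      refine le_trans (MvPolynomial.degreeOf_C_mul_le _ _ _) ?_
      refine le_trans (MvPolynomial.degreeOf_pow_le _ _ _) ?_
      rw [MvPolynomial.degreeOf_X]
      by_cases hji : j = i
      · subst hji; simpa using hm'
      · rw [if_neg (fun h => hji h.symm), if_neg hji]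
        simp
    refine le_trans (Finset.sum_le_sum fun j _ => hdeg j) ?_
    rw [Finset.sum_ite_eq' Finset.univ i fun _ => N]
    simp
  · intro q hq
    rw [map_sum]
    rw [Finset.sum_eq_single q]
    · rw [map_mul, MvPolynomial.eval_C, map_prod]
      have : ∀ i, MvPolynomial.eval q (Polynomial.aeval (MvPolynomial.X i : MvPolynomial (Fin k) ℂ)
          (ℓ i (q i))) = 1 := by
        intro i
        rw [eval_aeval_X]
        exact Lagrange.eval_basis_self (s := grid k (N + 1) i) (v := (id : ℂ → ℂ))
          (fun _ _ _ _ h => h) (hq i)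
      rw [Finset.prod_congr rfl fun i _ => this i]
      simp
    · intro b hb hbq
      rw [map_mul, map_prod]
      apply mul_eq_zero_of_right
      have : ∃ i, b i ≠ q i := by
        by_contra hcon
        push Not at hcon
        exact hbq (funext hcon)
      obtain ⟨i, hi⟩ := this
      apply Finset.prod_eq_zero (Finset.mem_univ i)
      rw [eval_aeval_X]
      exact Lagrange.eval_basis_of_ne (s := grid k (N + 1) i) (v := (id : ℂ → ℂ)) hi (hq i)
    · intro h
      exact absurd (Fintype.mem_piFinset.2 hq) h

/-- **A separately polynomial function on `Conf k` is the restriction of one polynomial.** -/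
theorem sepPoly {k N : ℕ} {H : (Fin k → ℂ) → ℂ} (hH : SepPoly N H) :
    ∃ P : MvPolynomial (Fin k) ℂ, (∀ i, P.degreeOf i ≤ N) ∧
      ∀ q ∈ Conf k, H q = MvPolynomial.eval q P := by
  obtain ⟨P, hP, he⟩ := exists_interp (N := N) H
  refine ⟨P, hP, fun q hq => ?_⟩
  have := vanish_of_grid (hH.sub (SepPoly.of_poly P hP))
    (fun q hq => by show H q - MvPolynomial.eval q P = 0; rw [he q hq, sub_self]) q hq
  exact sub_eq_zero.1 this

/-- If the function is symmetric, the polynomial is symmetric. -/
theorem symm_of_conf {k : ℕ} (P : MvPolynomial (Fin k) ℂ)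
    (h : ∀ q ∈ Conf k, ∀ π : Equiv.Perm (Fin k),
      MvPolynomial.eval (q ∘ π) P = MvPolynomial.eval q P) : P.IsSymmetric := by
  intro π
  apply eq_of_conf
  intro q hq
  rw [MvPolynomial.eval_rename]
  exact h q hq π

/-- If the function is homogeneous of degree `d`, the polynomial is. -/
theorem homog_of_conf {k d : ℕ} (P : MvPolynomial (Fin k) ℂ)
    (h : ∀ q ∈ Conf k, ∀ c : ℂ, c ≠ 0 →
      MvPolynomial.eval (fun i => c * q i) P = c ^ d * MvPolynomial.eval q P) : P.IsHomogeneous d := by
  classical
  set P' : MvPolynomial (Fin k) ℂ := ∑ m ∈ P.support, MvPolynomial.monomial m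
    (MvPolynomial.coeff m P * 2 ^ m.degree) with hP'
  have hev : ∀ q : Fin k → ℂ, MvPolynomial.eval q P' = MvPolynomial.eval (fun i => 2 * q i) P := by
    intro q
    rw [hP', map_sum, MvPolynomial.eval_eq']
    apply Finset.sum_congr rfl
    intro m _
    rw [MvPolynomial.eval_monomial, mul_assoc]
    congr 1
    rw [Finsupp.prod_fintype _ _ (fun i => pow_zero _), Finsupp.degree_eq_sum, ← Finset.prod_pow_eq_pow_sum,
      ← Finset.prod_mul_distrib]
    exact Finset.prod_congr rfl fun i _ => (mul_pow _ _ _).symm
  have heq : P' = MvPolynomial.C (2 ^ d) * P := by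
    apply eq_of_conf
    intro q hq
    rw [hev, h q hq 2 two_ne_zero, map_mul, MvPolynomial.eval_C]
  intro m hm
  have h1 : MvPolynomial.coeff m P' = MvPolynomial.coeff m P * 2 ^ m.degree := by
    rw [hP', MvPolynomial.coeff_sum]
    simp only [MvPolynomial.coeff_monomial]
    rw [Finset.sum_ite_eq' P.support m]
    rw [if_pos (MvPolynomial.mem_support_iff.2 hm)]
  rw [heq, MvPolynomial.coeff_C_mul, mul_comm] at h1
  have h2 : (2 : ℂ) ^ d = 2 ^ m.degree := mul_left_cancel₀ hm h1
  have h3 : d = m.degree := by
    have : (2 : ℕ) ^ d = 2 ^ m.degree := by exact_mod_cast h2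
    exact Nat.pow_right_injective (le_refl 2) this
  rw [h3, Finsupp.degree_eq_weight_one]
  rfl

end Pool.Agent.Helper37.LN5
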